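import Mathlib
import Pool.Agent.Q125.Zauner.Main

set_option autoImplicit false

namespace Pool.Agent.Results.MP_d0f9e0_co.CompletionTwoThirds

/-- Completion theorem for maximal equiangular tight frames with defect of order `d^(2/3)`.
Let `x_1, ..., x_N` be unit vectors in `ℂ^d` whose pairwise inner products all have the same modulus
`a < 1` (any common angle). If `100 (d² - N)³ ≤ d²`, that is `N ≥ d² - (d²/100)^(1/3)`, then
`N ≤ d²` and `x` extends to a maximal ETF `y_1, ..., y_{d²}`; moreover the completion is unique: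
every unit vector which makes the angle `1/√(d+1)` with all the `x_i` spans one of the lines of the
new `y_j`. -/
theorem result (d N : ℕ) (hd : 1 ≤ d) (x : Fin N → EuclideanSpace ℂ (Fin d))
    (hx1 : ∀ i, ‖x i‖ = 1) (a : ℝ) (ha : a < 1)
    (hx2 : ∀ i j, i ≠ j → ‖inner ℂ (x i) (x j)‖ = a)
    (hN : 100 * ((d : ℝ) ^ 2 - N) ^ 3 ≤ (d : ℝ) ^ 2) :
    ∃ (h : N ≤ d ^ 2) (y : Fin (d ^ 2) → EuclideanSpace ℂ (Fin d)),
      (∀ i, ‖y i‖ = 1) ∧
      (∀ i j, i ≠ j → ‖inner ℂ (y i) (y j)‖ = 1 / Real.sqrt ((d : ℝ) + 1)) ∧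
      (∀ i : Fin N, y (Fin.castLE h i) = x i) ∧
      ∀ w : EuclideanSpace ℂ (Fin d), ‖w‖ = 1 →
        (∀ i, ‖inner ℂ (x i) w‖ = 1 / Real.sqrt ((d : ℝ) + 1)) →
        ∃ j : Fin (d ^ 2), N ≤ (j : ℕ) ∧ ∃ c : ℂ, w = c • y j := by
  classical
  have hN' : 100 * (d ^ 2 - N) ^ 3 ≤ d ^ 2 := by
    rcases le_total N (d ^ 2) with h | h
    · have h1 : ((d ^ 2 - N : ℕ) : ℝ) = (d : ℝ) ^ 2 - N := by
        rw [Nat.cast_sub h, Nat.cast_pow]
      rw [← h1] at hN
      exact_mod_cast hN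
    · rw [Nat.sub_eq_zero_of_le h]
      simp
  have hx2' : ∀ i j, i ≠ j → ‖inner ℂ (x i) (x j)‖ = 1 / Real.sqrt ((d : ℝ) + 1) := by
    intro i j hij
    rw [hx2 i j hij]
    have hN2 : 2 ≤ N := by
      have h1 := i.isLt
      have h2 := j.isLt
      have h3 : (i : ℕ) ≠ j := fun h => hij (Fin.ext h)
      omega
    have ha0 : 0 ≤ a := by
      rw [← hx2 i j hij]
      exact norm_nonneg _
    by_contra hne
    have hα : a ^ 2 < 1 := by nlinarith
    have hαd : a ^ 2 * ((d : ℝ) + 1) ≠ 1 := by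
      intro h
      apply hne
      have h1 : a ^ 2 = (1 / Real.sqrt ((d : ℝ) + 1)) ^ 2 := by
        rw [div_pow, one_pow, Real.sq_sqrt (by positivity)]
        field_simp
        linarith
      exact (pow_left_inj₀ ha0 (by positivity) (two_ne_zero)).mp h1
    have h := Pool.Agent.H103R3.angle_bound hd x (α := a ^ 2) hx1
      (fun i j hij => by rw [hx2 i j hij]) hα hαd
    rcases Nat.lt_or_ge d 2 with h1 | h1
    · have : d = 1 := by omega
      subst this
      omega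
    · obtain ⟨k, rfl⟩ : ∃ k, d = k + 2 := ⟨d - 2, by omega⟩
      have h2 : k + 1 ≤ (k + 2) ^ 2 - N := by omega
      have h3 : (k + 1) ^ 3 ≤ ((k + 2) ^ 2 - N) ^ 3 := Nat.pow_le_pow_left h2 3
      have h4 : 100 * (k + 1) ^ 3 ≤ (k + 2) ^ 2 := by omega
      nlinarith [Nat.zero_le k, Nat.zero_le (k ^ 2), Nat.zero_le (k ^ 3)]
  obtain ⟨m, y, hm, hid, huniq⟩ := Pool.Agent.Q125.Zauner.completion hd x hx1 hx2' hN'
  have hcard : Fintype.card (Fin N ⊕ Fin m) = d ^ 2 := by
    rw [Fintype.card_sum, Fintype.card_fin, Fintype.card_fin, add_comm, hm]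
  have hsic := Pool.Agent.H103R3.design_sic hd hcard (Sum.elim x y) hid
  have hle : N ≤ d ^ 2 := by omega
  have hm' : N + m = d ^ 2 := by omega
  let e : Fin (d ^ 2) ≃ Fin N ⊕ Fin m := (finCongr hm'.symm).trans finSumFinEquiv.symm
  refine ⟨hle, fun k => Sum.elim x y (e k), fun i => hsic.1 _,
    fun i j hij => hsic.2 _ _ (fun h => hij (e.injective h)), ?_, ?_⟩
  · intro i
    have h1 : e (Fin.castLE hle i) = Sum.inl i := by
      rw [← Equiv.eq_symm_apply]
      apply Fin.ext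
      simp [e]
    show Sum.elim x y (e (Fin.castLE hle i)) = x i
    rw [h1, Sum.elim_inl]
  · intro w hw hwx
    obtain ⟨i, c, h⟩ := huniq w hw hwx
    refine ⟨e.symm (Sum.inr i), ?_, c, ?_⟩
    · simp [e]
    · show w = c • Sum.elim x y (e (e.symm (Sum.inr i)))
      rw [Equiv.apply_symm_apply, Sum.elim_inr]
      exact h

end Pool.Agent.Results.MP_d0f9e0_co.CompletionTwoThirds
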