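import Mathlib
import Pool.Agent.H109R2.SICBase
import Pool.Agent.Q188.TP.Parts

set_option autoImplicit false

namespace Pool.Agent.Results.MP_d0f9e0_co.FewPhases

open Filter Topology ComplexConjugate

/-- `x` is a maximal equiangular tight frame in `ℂ^d`. -/
def IsMaximalETF (d : ℕ) (x : Fin (d ^ 2) → EuclideanSpace ℂ (Fin d)) : Prop :=
  (∀ i, ‖x i‖ = 1) ∧ ∀ i j, i ≠ j → ‖inner ℂ (x i) (x j)‖ = 1 / Real.sqrt ((d : ℝ) + 1)

/-- The normalised triple product of three vectors. -/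
noncomputable def phase {d : ℕ} (x : Fin (d ^ 2) → EuclideanSpace ℂ (Fin d))
    (i j k : Fin (d ^ 2)) : ℂ :=
  ((Real.sqrt ((d : ℝ) + 1) : ℝ) : ℂ) ^ 3 *
    (inner ℂ (x i) (x j) * inner ℂ (x j) (x k) * inner ℂ (x k) (x i))

/-- The mean of `F` over the phases of the triples of distinct elements of `S` (normalised by
`|S|³`). -/
noncomputable def mean {d : ℕ} (x : Fin (d ^ 2) → EuclideanSpace ℂ (Fin d))
    (S : Finset (Fin (d ^ 2))) (F : ℂ → ℝ) : ℝ :=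
  (∑ i ∈ S, ∑ j ∈ S, ∑ k ∈ S, if i ≠ j ∧ j ≠ k ∧ k ≠ i then F (phase x i j k) else 0) /
    (S.card : ℝ) ^ 3

/-- Bilinear bounds for the first three powers of the phases. -/
def BilinearBounds : Prop :=
  ∀ (d : ℕ) (x : Fin (d ^ 2) → EuclideanSpace ℂ (Fin d)), IsMaximalETF d x →
    ∀ (i : Fin (d ^ 2)) (f g : Fin (d ^ 2) → ℂ) (m : ℕ), 1 ≤ m → m ≤ 3 →
      ‖∑ j, ∑ k, if i ≠ j ∧ j ≠ k ∧ k ≠ i then f j * g k * phase x i j k ^ m else 0‖ ≤
        √((d : ℝ) + 1) ^ (if m = 2 then 2 else 3) * √(∑ j, ‖f j‖ ^ 2) * √(∑ k, ‖g k‖ ^ 2)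

/-- Every arc longer than a quarter circle contains a positive proportion of the phases of large
boxes. -/
def LongArcs : Prop :=
  ∀ (d : ℕ) (x : Fin (d ^ 2) → EuclideanSpace ℂ (Fin d)), IsMaximalETF d x →
    ∀ (i : Fin (d ^ 2)) (B C : Finset (Fin (d ^ 2))), i ∉ B → i ∉ C → Disjoint B C →
      ∀ (ω : ℂ) (b : ℝ), ‖ω‖ = 1 → -1 ≤ b → b ≤ 1 →
        (1 / √2 - b) * (B.card * C.card) - 5 * √((d : ℝ) + 1) ^ 3 * √(B.card * C.card) ≤
          6 * ((B ×ˢ C).filter fun p => b ≤ (conj ω * phase x i p.1 p.2).re).card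

/-- Sets `S` of lines such that at most `2 * H + 1` numbers occur as `q`-th powers of phases of
triples of `S` have `O(√(d+1)^p)` elements, unless these numbers contain all `h`-th roots of `1` or
of `-1` for some `h` with `H < h ≤ 2 * H + 1`. -/
def FewPowers (q H p : ℕ) : Prop :=
  ∀ Φ : Finset ℂ, Φ.card ≤ 2 * H + 1 →
    (∀ h : ℕ, H < h → h ≤ 2 * H + 1 → ∀ ε : ℂ, ε = 1 ∨ ε = -1 → ∃ z, z ^ h = ε ∧ z ∉ Φ) →
    ∃ K : ℝ, ∀ (d : ℕ) (x : Fin (d ^ 2) → EuclideanSpace ℂ (Fin d)) (S : Finset (Fin (d ^ 2))),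
      IsMaximalETF d x →
      (∀ i ∈ S, ∀ j ∈ S, ∀ k ∈ S, i ≠ j → j ≠ k → k ≠ i → phase x i j k ^ q ∈ Φ) →
      (S.card : ℝ) ≤ K * √((d : ℝ) + 1) ^ p

/-- Equidistribution: if the `q`-th powers of the phases of sets `S n` with
`|S n| / √(d n + 1)^p → ∞` concentrate near a set `Φ` of at most `2 * H + 1` unit numbers, then they
are asymptotically equidistributed over all `h`-th roots of `1`, or all `h`-th roots of `-1`, for
some `h` with `H < h ≤ 2 * H + 1`, and these roots belong to `Φ`. -/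
def Equidistribution (q H p : ℕ) : Prop :=
  ∀ Φ : Finset ℂ, (∀ φ ∈ Φ, ‖φ‖ = 1) → Φ.card ≤ 2 * H + 1 →
    ∀ (d : ℕ → ℕ) (x : ∀ n, Fin (d n ^ 2) → EuclideanSpace ℂ (Fin (d n)))
      (S : ∀ n, Finset (Fin (d n ^ 2))), (∀ n, IsMaximalETF (d n) (x n)) →
      Tendsto (fun n => ((S n).card : ℝ) / √((d n : ℝ) + 1) ^ p) atTop atTop →
      (∀ δ : ℝ, 0 < δ → Tendsto (fun n => mean (x n) (S n) fun z =>
        {w : ℂ | ∀ φ ∈ Φ, δ ≤ ‖w - φ‖}.indicator 1 (z ^ q)) atTop (𝓝 0)) →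
      ∃ h : ℕ, H < h ∧ h ≤ 2 * H + 1 ∧ ∃ ε : ℂ, (ε = 1 ∨ ε = -1) ∧ (∀ z : ℂ, z ^ h = ε → z ∈ Φ) ∧
        ∀ F : ℂ → ℝ, Continuous F → Tendsto (fun n => mean (x n) (S n) fun z => F (z ^ q)) atTop
          (𝓝 ((∑ z ∈ (Polynomial.nthRoots h ε).toFinset, F z) / h))

/-- At most `d` lines of a maximal ETF in `ℂ^d` have all phases `±1`, at most `d + 2` have all phases
`±i`. -/
def RealSubsets : Prop :=
  ∀ (d : ℕ) (x : Fin (d ^ 2) → EuclideanSpace ℂ (Fin d)), IsMaximalETF d x →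
    ∀ S : Finset (Fin (d ^ 2)),
      ((∀ i ∈ S, ∀ j ∈ S, ∀ k ∈ S, i ≠ j → j ≠ k → k ≠ i → phase x i j k ^ 2 = 1) → S.card ≤ d) ∧
      ((∀ i ∈ S, ∀ j ∈ S, ∀ k ∈ S, i ≠ j → j ≠ k → k ≠ i → phase x i j k ^ 2 = -1) →
        S.card ≤ d + 2)

/-- Phases of maximal equiangular tight frames: bilinear bounds for the first three powers, long
arcs, subsets with few phases (at most `7` phases, or at most `3` squares of phases), equidistribution
over roots of `±1`, and real subsets. -/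
theorem result : BilinearBounds ∧ LongArcs ∧ (FewPowers 1 3 3 ∧ Equidistribution 1 3 3) ∧
    (FewPowers 2 1 2 ∧ Equidistribution 2 1 2) ∧ RealSubsets := by
  refine ⟨?_, ?_, ⟨?_, ?_⟩, ⟨?_, ?_⟩, ?_⟩
  · intro d x hx i f g m h1 h3
    have h := Pool.Agent.Q188.TP.bilinear hx i f g m h1 h3
    have e : Pool.Agent.Q188.TP.KK d m = √((d : ℝ) + 1) ^ (if m = 2 then 2 else 3) := by
      unfold Pool.Agent.Q188.TP.KK Pool.Agent.Q188.TP.sq
      split_ifs <;> rfl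
    rw [e] at h
    exact h
  · intro d x hx i B C hB hC hBC ω b hω hb hb'
    exact Pool.Agent.Q188.TP.arcs hx i B C hB hC hBC ω b hω hb hb'
  · intro Φ hΦ hno
    exact Pool.Agent.Q188.TP.few (Or.inl ⟨rfl, rfl, rfl⟩) Φ hΦ hno
  · intro Φ h1 h2 d x S hx hS hc
    exact Pool.Agent.Q188.TP.struct (Or.inl ⟨rfl, rfl, rfl⟩) Φ h1 h2 d x S hx hS hc
  · intro Φ hΦ hno
    exact Pool.Agent.Q188.TP.few (Or.inr ⟨rfl, rfl, rfl⟩) Φ hΦ hno
  · intro Φ h1 h2 d x S hx hS hc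
    exact Pool.Agent.Q188.TP.struct (Or.inr ⟨rfl, rfl, rfl⟩) Φ h1 h2 d x S hx hS hc
  · intro d x hx S
    exact ⟨Pool.Agent.Q188.TP.clique_pos hx S, Pool.Agent.Q188.TP.clique_neg hx S⟩

end Pool.Agent.Results.MP_d0f9e0_co.FewPhases
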