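import Pool.Agent.Q202.ETF.Two5

set_option autoImplicit false

/-!
# Vectors and bases with two overlaps with a maximal equiangular tight frame

Let `x` be a maximal ETF in `ℂ^d`, `d ≥ 2`, `s = √(d+1)`. The overlap of a unit vector `e` with the
line of `x i` is `|⟨x i, e⟩|²`.

1. Overlap inequality: for every set `A` of `r` lines
   `(d S - r)² ≤ r (d² - r) (d - 1) / (d + 1)`, where `S` is the sum of the overlaps of `e` with the
   lines of `A`; equality (for `0 < r < d²`) holds if and only if the overlaps are constant on `A`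
   and off `A`.
2. A unit vector is orthogonal to at most `d (d - 1) / 2` lines, with equality if and only if all
   other overlaps are `2 / (d + 1)`.
3. If the overlaps of `e` take two values `a < b`, the larger one for `r` lines, then `e` is on one
   of the lines and `r = 1`, or `d ≤ r ≤ d (d + 1) / 2`; and `r = d (d + 1) / 2` if and only if
   `a = 0`.
4. A set of lines all of whose triple products are positive has at most `d` elements. A set `A` of
   `d` lines is such a set if and only if it has a centre: a unit vector whose overlap is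
   `b = (s + 2) / (s (s + 1))` on `A` and `a = 1 / (s (s + 1))` off `A`. If `r = d` in (3) then `e`
   is the centre of the `d` lines.
5. If `e`, `f` are the centres of `A`, `B` then `|⟨e, f⟩|² = |A ∩ B| / d`: disjoint sets have
   orthogonal centres, sets with one common line have unbiased centres.
6. Suppose that the coordinates of the `x i` in an orthonormal basis have only two moduli, with
   squares `a < b`. Then every `x i` has the same number `n` of large coordinates, `2 n ≤ d + 1`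
   (with equality if and only if `a = 0`), `d - 1` divides `n (n - 1)`, and the sets of large
   coordinates form a 2-design with `d²` blocks, every pair of coordinates being in
   `d n (n - 1) / (d - 1)` blocks; `a` and `b` are determined by `d` and `n`. If `n = 1`, then the
   lines are divided into `d` positive sets and the phases of the coordinates of the vectors of each
   of these sets form a complex Hadamard matrix of order `d`.
7. Conversely, if the lines are divided into `d` positive sets with `d` elements, the centres form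
   an orthonormal basis.
-/

namespace Pool.Agent.Results.MP_d0f9e0_co.TwoOverlaps

open Finset

/-- `x` is a maximal ETF in `ℂ^d`. -/
def MaxETF (d : ℕ) (x : Fin (d ^ 2) → EuclideanSpace ℂ (Fin d)) : Prop :=
  (∀ i, ‖x i‖ = 1) ∧ ∀ i j, i ≠ j → ‖inner ℂ (x i) (x j)‖ = 1 / Real.sqrt ((d : ℝ) + 1)

/-- The overlap of `e` with the line of `x i`. -/
noncomputable def overlap {d : ℕ} (x : Fin (d ^ 2) → EuclideanSpace ℂ (Fin d))
    (e : EuclideanSpace ℂ (Fin d)) (i : Fin (d ^ 2)) : ℝ := ‖inner ℂ (x i) e‖ ^ 2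

/-- All triple products of three different lines of `A` are positive real numbers. -/
def Positive {d : ℕ} (x : Fin (d ^ 2) → EuclideanSpace ℂ (Fin d)) (A : Finset (Fin (d ^ 2))) :
    Prop :=
  ∀ i ∈ A, ∀ j ∈ A, ∀ k ∈ A, i ≠ j → j ≠ k → i ≠ k →
    ∃ t : ℝ, 0 < t ∧ inner ℂ (x i) (x j) * inner ℂ (x j) (x k) * inner ℂ (x k) (x i) = (t : ℂ)

/-- `e` is the centre of the set `A` of lines. -/
def Centre {d : ℕ} (x : Fin (d ^ 2) → EuclideanSpace ℂ (Fin d)) (A : Finset (Fin (d ^ 2)))
    (e : EuclideanSpace ℂ (Fin d)) : Prop :=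
  ‖e‖ = 1 ∧ ∀ i, overlap x e i = if i ∈ A then
    (Real.sqrt ((d : ℝ) + 1) + 2) / (Real.sqrt ((d : ℝ) + 1) * (Real.sqrt ((d : ℝ) + 1) + 1))
    else 1 / (Real.sqrt ((d : ℝ) + 1) * (Real.sqrt ((d : ℝ) + 1) + 1))

/-- The phase `z / |z|`. -/
noncomputable def phase (z : ℂ) : ℂ := z / (‖z‖ : ℂ)

open Classical in
/-- The lines whose overlap with `e` is `b`. -/
noncomputable def lines {d : ℕ} (x : Fin (d ^ 2) → EuclideanSpace ℂ (Fin d))
    (e : EuclideanSpace ℂ (Fin d)) (b : ℝ) : Finset (Fin (d ^ 2)) :=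
  Finset.univ.filter fun i => overlap x e i = b

/-- (1) The overlap inequality. -/
def OverlapInequality {d : ℕ} (x : Fin (d ^ 2) → EuclideanSpace ℂ (Fin d)) : Prop :=
  ∀ (e : EuclideanSpace ℂ (Fin d)) (A : Finset (Fin (d ^ 2))), ‖e‖ = 1 →
    (d * ∑ i ∈ A, overlap x e i - A.card) ^ 2 ≤
      A.card * ((d : ℝ) ^ 2 - A.card) * ((d - 1) / (d + 1)) ∧
    (A.Nonempty → A ≠ Finset.univ →
      ((d * ∑ i ∈ A, overlap x e i - A.card) ^ 2 =
        A.card * ((d : ℝ) ^ 2 - A.card) * ((d - 1) / (d + 1)) ↔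
      ∃ a b : ℝ, ∀ i, overlap x e i = if i ∈ A then b else a))

/-- (2) The lines orthogonal to a unit vector. -/
def OrthogonalLines {d : ℕ} (x : Fin (d ^ 2) → EuclideanSpace ℂ (Fin d)) : Prop :=
  ∀ e : EuclideanSpace ℂ (Fin d), ‖e‖ = 1 →
    2 * (lines x e 0).card ≤ d * (d - 1) ∧
    (2 * (lines x e 0).card = d * (d - 1) ↔
      ∀ i, overlap x e i = 0 ∨ overlap x e i = 2 / (d + 1))

/-- (3) Vectors with two overlaps. -/
def TwoOverlapVectors {d : ℕ} (x : Fin (d ^ 2) → EuclideanSpace ℂ (Fin d)) : Prop :=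
  ∀ (e : EuclideanSpace ℂ (Fin d)) (A : Finset (Fin (d ^ 2))) (a b : ℝ), ‖e‖ = 1 → a < b →
    (∀ i, overlap x e i = if i ∈ A then b else a) →
    ((∃ (i : Fin (d ^ 2)) (c : ℂ), A = {i} ∧ e = c • x i) ∨ d ≤ A.card) ∧
    2 * A.card ≤ d * (d + 1) ∧ (2 * A.card = d * (d + 1) ↔ a = 0) ∧
    (A.card = d → Centre x A e)

/-- (4) Positive sets. -/
def PositiveSets {d : ℕ} (x : Fin (d ^ 2) → EuclideanSpace ℂ (Fin d)) : Prop :=
  ∀ A : Finset (Fin (d ^ 2)), (Positive x A → A.card ≤ d) ∧
    (A.card = d → (Positive x A ↔ ∃ e, Centre x A e))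

/-- (5) The angle between two centres. -/
def CentreAngles {d : ℕ} (x : Fin (d ^ 2) → EuclideanSpace ℂ (Fin d)) : Prop :=
  ∀ (A B : Finset (Fin (d ^ 2))) (e f : EuclideanSpace ℂ (Fin d)), A.card = d → B.card = d →
    Centre x A e → Centre x B f → ‖inner ℂ e f‖ ^ 2 = ((A ∩ B).card : ℝ) / d

open Classical in
/-- (6) Orthonormal bases with two coordinate moduli. -/
def TwoModuliBases {d : ℕ} (x : Fin (d ^ 2) → EuclideanSpace ℂ (Fin d)) : Prop :=
  ∀ (e : OrthonormalBasis (Fin d) ℂ (EuclideanSpace ℂ (Fin d))) (a b : ℝ), a < b →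
    (∀ k i, overlap x (e k) i = a ∨ overlap x (e k) i = b) →
    ∃ n m : ℕ, 1 ≤ n ∧ 2 * n ≤ d + 1 ∧ (2 * n = d + 1 ↔ a = 0) ∧ (d - 1) * m = n * (n - 1) ∧
      (∀ i, (Finset.univ.filter fun k => overlap x (e k) i = b).card = n) ∧
      (∀ k, (lines x (e k) b).card = d * n) ∧
      (∀ k l, k ≠ l → (lines x (e k) b ∩ lines x (e l) b).card = d * m) ∧
      ((d : ℝ) - n) * (1 - d * a) ^ 2 * (d + 1) = n * (d - 1) ∧
      b = a + (1 - d * a) / n ∧
      (n = 1 → ∀ k, Positive x (lines x (e k) b) ∧ Centre x (lines x (e k) b) (e k) ∧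
        ∀ i ∈ lines x (e k) b, ∀ j ∈ lines x (e k) b, i ≠ j →
          ∑ l, star (phase (inner ℂ (e l) (x i))) * phase (inner ℂ (e l) (x j)) = 0)

/-- (7) Partitions into positive sets. -/
def PositivePartitions {d : ℕ} (x : Fin (d ^ 2) → EuclideanSpace ℂ (Fin d)) : Prop :=
  ∀ A : Fin d → Finset (Fin (d ^ 2)), (∀ k, (A k).card = d) → (∀ k, Positive x (A k)) →
    (∀ k l, k ≠ l → Disjoint (A k) (A l)) →
    ∃ e : OrthonormalBasis (Fin d) ℂ (EuclideanSpace ℂ (Fin d)), ∀ k, Centre x (A k) (e k)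

open Classical in
theorem result (d : ℕ) (hd : 2 ≤ d) (x : Fin (d ^ 2) → EuclideanSpace ℂ (Fin d))
    (hx : MaxETF d x) :
    OverlapInequality x ∧ OrthogonalLines x ∧ TwoOverlapVectors x ∧ PositiveSets x ∧
      CentreAngles x ∧ TwoModuliBases x ∧ PositivePartitions x := by
  have hx' : Pool.Agent.H109R2.SIC.IsMaxETF d x := hx
  have hd1 : 1 ≤ d := by omega
  have hd0 : (2 : ℝ) ≤ d := by exact_mod_cast hd
  have hdp : (0 : ℝ) < d := by linarith
  refine ⟨fun e A he => ⟨Q202.ETF.overlap_le hx' he hd1 A, fun hA hA' => ⟨fun h => ?_, ?_⟩⟩,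
    fun e he => ?_, fun e A a b he hab h => ?_, fun A => ⟨Q202.ETF.positive_card hx' hd,
      fun hA => ⟨fun h => ?_, ?_⟩⟩, fun A B e f hA hB h1 h2 => ?_, fun e a b hab h => ?_,
    fun A hA hP hdis => ?_⟩
  · -- equality in (1)
    have h1 := Q202.ETF.overlap_eq hx' he A h
    have c1 : (0 : ℝ) < A.card := by exact_mod_cast hA.card_pos
    have c2 : (A.card : ℝ) < (d : ℝ) ^ 2 := by
      rcases (Q202.ETF.card_le A).eq_or_lt with h5 | h5
      · exfalso
        apply hA'
        rw [← Finset.card_eq_iff_eq_univ, Fintype.card_fin]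
        exact_mod_cast h5
      · exact h5
    have c3 : (0 : ℝ) < A.card * ((d : ℝ) ^ 2 - A.card) := mul_pos c1 (by linarith)
    set T : ℝ := d * ∑ i ∈ A, overlap x e i - A.card with hT
    refine ⟨(1 - T * A.card / (A.card * ((d : ℝ) ^ 2 - A.card))) / d,
      (1 + T * ((d : ℝ) ^ 2 - A.card) / (A.card * ((d : ℝ) ^ 2 - A.card))) / d, fun i => ?_⟩
    have h2 : (A.card : ℝ) * ((d : ℝ) ^ 2 - A.card) * (overlap x e i * d - 1) =
        T * Q202.ETF.tf A i := h1 i
    have h3 : overlap x e i * d - 1 = T * Q202.ETF.tf A i / (A.card * ((d : ℝ) ^ 2 - A.card)) := by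
      rw [eq_div_iff c3.ne']
      linarith
    have h4 : overlap x e i =
        (1 + T * Q202.ETF.tf A i / (A.card * ((d : ℝ) ^ 2 - A.card))) / d := by
      rw [← h3]
      field_simp
      ring
    rw [h4]
    unfold Q202.ETF.tf
    split_ifs
    · rfl
    · congr 1
      ring
  · rintro ⟨a, b, h⟩
    have h0 : Q202.ETF.TwoOv x e A a b := h
    have h1 := h0.sum1 hx' he
    have h3 := h0.sum3 hx' he
    have h4 : ∑ i ∈ A, overlap x e i = A.card * b := h0.sum_on
    rw [h4]
    have h5 : (d : ℝ) * (d * (A.card * b) - A.card) =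
        A.card * ((d : ℝ) ^ 2 - A.card) * (b - a) := by
      have : (d : ℝ) * (d * (A.card * b) - A.card) =
          A.card * ((d : ℝ) ^ 2 * b - (A.card * b + ((d : ℝ) ^ 2 - A.card) * a)) := by
        rw [h1]
        ring
      rw [this]
      ring
    have h6 : (d : ℝ) ^ 2 * (d * (A.card * b) - A.card) ^ 2 =
        (d : ℝ) ^ 2 * (A.card * ((d : ℝ) ^ 2 - A.card) * ((d - 1) / (d + 1))) := by
      have : (d : ℝ) ^ 2 * (d * (A.card * b) - A.card) ^ 2 =
          ((d : ℝ) * (d * (A.card * b) - A.card)) ^ 2 := by ring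
      rw [this, h5]
      have : (A.card * ((d : ℝ) ^ 2 - A.card) * (b - a)) ^ 2 =
          (A.card * ((d : ℝ) ^ 2 - A.card)) * (A.card * ((d : ℝ) ^ 2 - A.card) * (b - a) ^ 2) := by
        ring
      rw [this, h3]
      ring
    exact mul_left_cancel₀ (by positivity) h6
  · -- (2)
    have hZ : ∀ i, i ∈ lines x e 0 ↔ overlap x e i = 0 := by
      intro i
      simp [lines]
    obtain ⟨h1, h2⟩ := Q202.ETF.support_card hx' he hd1 (lines x e 0)ᶜ (fun i hi => by
      rw [Finset.mem_compl, not_not] at hi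
      exact (hZ i).1 hi)
    rw [Q202.ETF.card_compl_real] at h1 h2
    have hcast : (((d * (d - 1) : ℕ)) : ℝ) = (d : ℝ) * ((d : ℝ) - 1) := by
      rw [Nat.cast_mul, Nat.cast_sub hd1, Nat.cast_one]
    have h3 : (((2 * (lines x e 0).card : ℕ)) : ℝ) ≤ ((d * (d - 1) : ℕ) : ℝ) := by
      rw [hcast]
      push_cast
      nlinarith
    refine ⟨by exact_mod_cast h3, fun h => ?_, fun h => ?_⟩
    · have h4 : (((2 * (lines x e 0).card : ℕ)) : ℝ) = ((d * (d - 1) : ℕ) : ℝ) := by rw [h]
      rw [hcast] at h4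
      push_cast at h4
      have h5 := h2 (by linarith)
      intro i
      by_cases hi : i ∈ lines x e 0
      · exact Or.inl ((hZ i).1 hi)
      · exact Or.inr (h5 i (Finset.mem_compl.2 hi))
    · have h0 : Q202.ETF.TwoOv x e (lines x e 0)ᶜ 0 (2 / ((d : ℝ) + 1)) := by
        intro i
        split_ifs with hi
        · rw [Finset.mem_compl] at hi
          exact (h i).resolve_left fun h' => hi ((hZ i).2 h')
        · rw [Finset.mem_compl, not_not] at hi
          exact (hZ i).1 hi
      obtain ⟨-, h4⟩ := h0.card_le hx' he hd (by positivity)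
      have h5 := h4.2 rfl
      rw [Q202.ETF.card_compl_real] at h5
      have h6 : (((2 * (lines x e 0).card : ℕ)) : ℝ) = ((d * (d - 1) : ℕ) : ℝ) := by
        rw [hcast]
        push_cast
        nlinarith
      exact_mod_cast h6
  · -- (3)
    have h0 : Q202.ETF.TwoOv x e A a b := h
    obtain ⟨h1, h2⟩ := h0.card_le hx' he hd hab
    refine ⟨?_, by exact_mod_cast h1, ?_, fun hA => ?_⟩
    · by_cases hA : d ≤ A.card
      · exact Or.inr hA
      · exact Or.inl (h0.small hx' he hd hab (not_le.1 hA))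
    · rw [← h2]
      constructor
      · intro h
        exact_mod_cast h
      · intro h
        exact_mod_cast h
    · obtain ⟨h3, h4⟩ := h0.values hx' he hd hab hA
      refine ⟨he, fun i => ?_⟩
      rw [h i, h3, h4]
      rfl
  · obtain ⟨e, he, h1⟩ := Q202.ETF.positive_centre hx' hd h hA
    exact ⟨e, he, h1⟩
  · rintro ⟨e, he, h1⟩
    have h0 : Q202.ETF.TwoOv x e A (Q202.ETF.av d) (Q202.ETF.bv d) := h1
    exact h0.positive hx' he hd hA
  · exact Q202.ETF.centres hx' hd hA hB h1.1 h2.1 h1.2 h2.2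
  · -- (6)
    obtain ⟨n, m, c1, c2, c3, c4, c5, c6, c7, c8, c9⟩ :=
      Q202.ETF.basis_main (e := e) hx' hd hab h
    have hl : ∀ k, lines x (e k) b = Q202.ETF.Ak x e b k := by
      intro k
      ext i
      rw [Q202.ETF.mem_Ak]
      simp only [lines, Finset.mem_filter, Finset.mem_univ, true_and]
      rfl
    have hs : ∀ i, (Finset.univ.filter fun k => overlap x (e k) i = b) =
        Q202.ETF.Sk x e b i := by
      intro i
      ext k
      rw [Q202.ETF.mem_Sk]
      simp only [Finset.mem_filter, Finset.mem_univ, true_and]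
      rfl
    refine ⟨n, m, c1, c2, c3, c4, fun i => by rw [hs]; exact c5 i, fun k => by
      rw [hl]; exact c6 k, fun k l hkl => by rw [hl, hl]; exact c7 k l hkl, c8, c9, ?_⟩
    rintro rfl
    have htwo := fun k => Q202.ETF.basis_two (x := x) (e := e) h k
    have hc : ∀ k, (Q202.ETF.Ak x e b k).card = d := by
      intro k
      rw [c6 k, mul_one]
    have hval := (htwo ⟨0, by omega⟩).values hx' (e.orthonormal.1 _) hd hab (hc _)
    obtain ⟨ha, hb⟩ := hval
    subst hb
    subst ha
    have hdis : ∀ k l, k ≠ l → Disjoint (Q202.ETF.Ak x e (Q202.ETF.bv d) k)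
        (Q202.ETF.Ak x e (Q202.ETF.bv d) l) := by
      intro k l hkl
      rw [Finset.disjoint_left]
      intro i hi hi'
      have h5 := c5 i
      rw [Finset.card_eq_one] at h5
      obtain ⟨q, hq⟩ := h5
      have h6 : k ∈ Q202.ETF.Sk x e (Q202.ETF.bv d) i :=
        Q202.ETF.mem_Sk.2 (Q202.ETF.mem_Ak.1 hi)
      have h7 : l ∈ Q202.ETF.Sk x e (Q202.ETF.bv d) i :=
        Q202.ETF.mem_Sk.2 (Q202.ETF.mem_Ak.1 hi')
      rw [hq, Finset.mem_singleton] at h6 h7
      exact hkl (h6.trans h7.symm)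
    intro k
    rw [hl]
    refine ⟨(htwo k).positive hx' (e.orthonormal.1 k) hd (hc k), ⟨e.orthonormal.1 k, htwo k⟩,
      fun i hi j hj hij => ?_⟩
    exact Q202.ETF.basis_hadamard hx' hd htwo hc hdis k hi hj hij
  · obtain ⟨e, he⟩ := Q202.ETF.partition_basis hx' hd A hA hP hdis
    exact ⟨e, fun k => ⟨e.orthonormal.1 k, he k⟩⟩

end Pool.Agent.Results.MP_d0f9e0_co.TwoOverlaps
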