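import Mathlib
import Pool.Agent.Q17.SICN.Count

set_option autoImplicit false

namespace Pool.Agent.Results.MP_d0f9e0_co.WeylCentralizer

/-- `x` is a maximal equiangular tight frame in `ℂ^d`. -/
def IsMaximalETF (d : ℕ) (x : Fin (d ^ 2) → EuclideanSpace ℂ (Fin d)) : Prop :=
  (∀ i, ‖x i‖ = 1) ∧ ∀ i j, i ≠ j → ‖inner ℂ (x i) (x j)‖ = 1 / Real.sqrt ((d : ℝ) + 1)

/-- The unitary transformation `U` maps the line of `x i` to the line of `x (π i)` for all `i`. -/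
def Induces {d : ℕ} (x : Fin (d ^ 2) → EuclideanSpace ℂ (Fin d))
    (U : EuclideanSpace ℂ (Fin d) ≃ₗᵢ[ℂ] EuclideanSpace ℂ (Fin d))
    (π : Equiv.Perm (Fin (d ^ 2))) : Prop :=
  ∀ i, ∃ c : ℂ, U (x i) = c • x (π i)

/-- The permutation `π` of the lines is induced by a unitary transformation. -/
def IsSymmetry {d : ℕ} (x : Fin (d ^ 2) → EuclideanSpace ℂ (Fin d))
    (π : Equiv.Perm (Fin (d ^ 2))) : Prop := ∃ U, Induces x U π

/-- `G` is a group of permutations of the lines which are induced by unitary transformations, and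
it is transitive. -/
def IsTransitiveSymmetryGroup {d : ℕ} (x : Fin (d ^ 2) → EuclideanSpace ℂ (Fin d))
    (G : Subgroup (Equiv.Perm (Fin (d ^ 2)))) : Prop :=
  (∀ π ∈ G, IsSymmetry x π) ∧ ∀ i j, ∃ π ∈ G, π i = j

/-- The symmetries `π`, `σ` are induced by unitary transformations `Z`, `T` of `ℂ^d` such that
`ZT = ζTZ` for a primitive `d`-th root of unity `ζ` (so, in a suitable orthonormal basis, `Z` and
`T` are multiples of the clock and the shift, and `x` is covariant under the Weyl-Heisenberg group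
generated by them). -/
def IsWeylPair {d : ℕ} (x : Fin (d ^ 2) → EuclideanSpace ℂ (Fin d))
    (π σ : Equiv.Perm (Fin (d ^ 2))) : Prop :=
  ∃ Z T, ∃ ζ : ℂ, Induces x Z π ∧ Induces x T σ ∧ IsPrimitiveRoot ζ d ∧
    ∀ v, Z (T v) = ζ • T (Z v)

/-- `ρ` is a product of powers of `π` and `σ`. -/
def InWeylGroup {d : ℕ} (π σ ρ : Equiv.Perm (Fin (d ^ 2))) : Prop :=
  ∃ a b : ℕ, ρ = π ^ a * σ ^ b

/-- The number of elements of order `d` of the group `(ℤ/d)²` (Jordan's totient `J₂(d)`). -/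
noncomputable def jordan (d : ℕ) : ℕ := Nat.card {v : ZMod d × ZMod d // addOrderOf v = d}

/-- **Symmetries of Weyl-Heisenberg covariant maximal equiangular tight frames.** Let `x` be a
maximal equiangular tight frame in `ℂ^d`.
* If `π`, `σ` is a Weyl pair of symmetries, then the group of the `π^a σ^b` is regular on the
  lines. If `d ≠ 3`, then every symmetry commuting with `π` is in this group, and every group of
  symmetries which fix a line and normalize this group has order dividing `J₂(d)`.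
* Let `G` be a transitive group of symmetries. Suppose that the centre of `G` contains an element
  of order `d`, or that `d` is squarefree and `G` is nilpotent. Then `G` contains a Weyl pair
  `π`, `σ`, and if `d ≠ 3`, then `G` consists of the `π^a σ^b`. -/
theorem result (d : ℕ) (hd : 1 ≤ d) (x : Fin (d ^ 2) → EuclideanSpace ℂ (Fin d))
    (hx : IsMaximalETF d x) :
    (∀ π σ, IsWeylPair x π σ →
      (∀ i j, ∃! v : Fin d × Fin d, (π ^ (v.1 : ℕ) * σ ^ (v.2 : ℕ)) i = j) ∧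
      (d ≠ 3 → ∀ ρ, IsSymmetry x ρ → π * ρ = ρ * π → InWeylGroup π σ ρ) ∧
      (d ≠ 3 → ∀ (i : Fin (d ^ 2)) (C : Subgroup (Equiv.Perm (Fin (d ^ 2)))),
        (∀ ρ ∈ C, IsSymmetry x ρ ∧ ρ i = i ∧ InWeylGroup π σ (ρ * π * ρ⁻¹) ∧
          InWeylGroup π σ (ρ * σ * ρ⁻¹)) → Nat.card C ∣ jordan d)) ∧
    (∀ G, IsTransitiveSymmetryGroup x G →
      ((∃ z ∈ G, (∀ g ∈ G, z * g = g * z) ∧ orderOf z = d) ∨
        (Squarefree d ∧ Group.IsNilpotent G)) →
      ∃ π ∈ G, ∃ σ ∈ G, IsWeylPair x π σ ∧ (d ≠ 3 → ∀ ρ ∈ G, InWeylGroup π σ ρ)) := by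
  have hx' : Pool.Agent.Y387.SF.IsEtf d x := ⟨hx.1, hx.2⟩
  have hcard : Fintype.card (Fin (d ^ 2)) = d ^ 2 := Fintype.card_fin _
  have hV : Module.finrank ℂ (EuclideanSpace ℂ (Fin d)) = d := by simp
  have hne : NeZero d := ⟨by omega⟩
  have hι : Nonempty (Fin (d ^ 2)) := ⟨⟨0, by positivity⟩⟩
  obtain ⟨i₀⟩ := id hι
  have hcent : ∀ π σ, IsWeylPair x π σ → d ≠ 3 → ∀ ρ, IsSymmetry x ρ → π * ρ = ρ * π →
      InWeylGroup π σ ρ := by
    rintro π σ ⟨Z, T, ζ, hZ, hT, hζ, hZT⟩ hd3 ρ ⟨U, hU⟩ hπρ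
    have w : Q17.SICN.WP d x Z T π σ ζ := ⟨hZ, hT, hζ, hZT⟩
    obtain ⟨c, -, hc⟩ := Q17.SICN.scalar_of_commute hx' hd hcard hV hZ hU hπρ
    obtain ⟨a, b, -, -, hab⟩ := w.centralizer hx' hd hcard hV hd3 i₀ hU hc
    exact ⟨a, b, hab⟩
  refine ⟨?_, ?_⟩
  · intro π σ hW
    refine ⟨?_, hcent π σ hW, ?_⟩
    · obtain ⟨Z, T, ζ, hZ, hT, hζ, hZT⟩ := hW
      have w : Q17.SICN.WP d x Z T π σ ζ := ⟨hZ, hT, hζ, hZT⟩
      intro i j
      have hb := w.bij hx' hcard hV i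
      obtain ⟨⟨a, b⟩, hab⟩ := hb.2 j
      refine ⟨(⟨a.val, ZMod.val_lt a⟩, ⟨b.val, ZMod.val_lt b⟩), hab, ?_⟩
      rintro ⟨a', b'⟩ hab'
      have h1 : (π ^ ((a' : ℕ) : ZMod d).val * σ ^ ((b' : ℕ) : ZMod d).val) i = j := by
        rw [ZMod.val_cast_of_lt a'.2, ZMod.val_cast_of_lt b'.2]
        exact hab'
      have h2 := hb.1 (a₁ := ((a' : ℕ), (b' : ℕ))) (a₂ := (a, b)) (h1.trans hab.symm)
      obtain ⟨h3, h4⟩ := Prod.mk.inj h2
      refine Prod.ext (Fin.ext ?_) (Fin.ext ?_)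
      · change (a' : ℕ) = a.val
        rw [← h3, ZMod.val_cast_of_lt a'.2]
      · change (b' : ℕ) = b.val
        rw [← h4, ZMod.val_cast_of_lt b'.2]
    · obtain ⟨Z, T, ζ, hZ, hT, hζ, hZT⟩ := hW
      have w : Q17.SICN.WP d x Z T π σ ζ := ⟨hZ, hT, hζ, hZT⟩
      intro hd3 i C hC
      exact Q17.SICN.stab_dvd hx' hd hcard hV hd3 w i C (fun ρ hρ => (hC ρ hρ).1)
        (fun ρ hρ => (hC ρ hρ).2.1) (fun ρ hρ => (hC ρ hρ).2.2)
  · intro G hG hcase
    -- a central element of order `d`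
    have hz : ∃ z ∈ G, (∀ g ∈ G, z * g = g * z) ∧ orderOf z = d := by
      rcases hcase with hz | ⟨hsf, hnil⟩
      · exact hz
      · have hpre : MulAction.IsPretransitive G (Fin (d ^ 2)) := by
          constructor
          intro i j
          obtain ⟨π, hπ, hij⟩ := hG.2 i j
          exact ⟨⟨π, hπ⟩, hij⟩
        have hdvd := Pool.Agent.Y387.RU.card_dvd hpre i₀
        rw [hcard] at hdvd
        obtain ⟨g, hg, hgo⟩ := Q17.SICN.exists_central_squarefree (G := G) d.primeFactors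
          (fun p hp => Nat.prime_of_mem_primeFactors hp)
          (fun p hp => ((Nat.dvd_of_mem_primeFactors hp).trans
            (dvd_pow_self d (by norm_num))).trans hdvd)
        rw [Nat.prod_primeFactors_of_squarefree hsf] at hgo
        refine ⟨g, g.2, fun h hh => ?_, ?_⟩
        · have h1 := Subgroup.mem_center_iff.1 hg ⟨h, hh⟩
          exact (congrArg (fun t : G => (t : Equiv.Perm (Fin (d ^ 2)))) h1).symm
        · rw [Subgroup.orderOf_coe]
          exact hgo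
    obtain ⟨z, hzG, hzc, hzo⟩ := hz
    obtain ⟨Z, hZ⟩ := hG.1 z hzG
    obtain ⟨T, σ, ζ, hσG, w⟩ := Q17.SICN.exists_wp hx' hd hcard hV G hG.1 hG.2 i₀ hZ hzc hzo
    have hW : IsWeylPair x z σ := ⟨Z, T, ζ, w.hZ, w.hT, w.prim, w.comm⟩
    exact ⟨z, hzG, σ, hσG, hW, fun hd3 ρ hρ => hcent z σ hW hd3 ρ (hG.1 ρ hρ) (hzc ρ hρ)⟩

end Pool.Agent.Results.MP_d0f9e0_co.WeylCentralizer
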